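import Pool.Agent.H922R3.TA.Main

/-!
# Pointwise convergence of multiple ergodic averages of toral endomorphisms

`toralMap A` is the endomorphism of the torus `𝕋^d` given by the integer matrix `A`, `haarT d` the
Haar probability measure. No relation between the matrices `A j` is assumed: they need not commute
and the group which they generate may be arbitrary.
-/

set_option autoImplicit false

open Filter Topology MeasureTheory

namespace Pool.Agent.Results.MP_4d8f14_an.ToralEndomorphisms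

open Pool.Agent.H922R3.TA

/-- Let `T_j`, `j ∈ J` (a finite set), be arbitrary surjective endomorphisms of the torus `𝕋^d` and
let `f_j` be bounded measurable functions. Then the averages `(1/N) ∑_{n < N} ∏_j f_j (T_j^n x)`
converge for almost every `x`; if the `T_j` are automorphisms, so do the averages over
`-N ≤ n ≤ N`. -/
theorem result (d : ℕ) {J : Type*} [Fintype J] (A : J → Matrix (Fin d) (Fin d) ℤ)
    (hA : ∀ j, (A j).det ≠ 0) (f : J → UnitAddTorus (Fin d) → ℂ) (hf : ∀ j, Measurable (f j))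
    (hb : ∀ j, ∃ C : ℝ, ∀ x, ‖f j x‖ ≤ C) :
    (∀ᵐ x ∂(haarT d), ∃ L : ℂ, Tendsto (fun N : ℕ => (N : ℂ)⁻¹ *
      ∑ n ∈ Finset.range N, ∏ j, f j ((toralMap (A j))^[n] x)) atTop (𝓝 L)) ∧
    ((∀ j, IsUnit (A j).det) → ∀ᵐ x ∂(haarT d), ∃ L : ℂ, Tendsto (fun N : ℕ => (2 * N + 1 : ℂ)⁻¹ *
      (∑ n ∈ Finset.range (N + 1), ∏ j, f j ((toralMap (A j))^[n] x) +
        ∑ n ∈ Finset.range N, ∏ j, f j ((toralMap (A j)⁻¹)^[n + 1] x))) atTop (𝓝 L)) := by
  classical
  have hbm : ∀ j, BM (f j) := fun j => ⟨hf j, hb j⟩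
  refine ⟨all_conv hA hbm, fun hu => ?_⟩
  have hA' : ∀ j, ((A j)⁻¹).det ≠ 0 := by
    intro j h0
    have h1 : (A j) * (A j)⁻¹ = 1 := Matrix.mul_nonsing_inv _ (hu j)
    have h2 := congrArg Matrix.det h1
    rw [Matrix.det_mul, h0, mul_zero, Matrix.det_one] at h2
    exact absurd h2 (by norm_num)
  filter_upwards [all_conv hA hbm, all_conv hA' hbm] with x hx hx'
  obtain ⟨L, hL⟩ := hx
  obtain ⟨L', hL'⟩ := hx'
  set c : ℂ := ∏ j, f j x with hc
  have h1 := (hL.comp (tendsto_add_atTop_nat 1)).add (hL'.comp (tendsto_add_atTop_nat 1))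
  have hlim0 : Tendsto (fun N : ℕ => ((2 * N + 1 : ℕ) : ℂ)⁻¹) atTop (𝓝 0) := by
    have h2 := tendsto_inv_atTop_nhds_zero_nat (𝕜 := ℂ)
    exact h2.comp (tendsto_atTop_mono (fun N => (by omega : N ≤ 2 * N + 1)) tendsto_id)
  have hratio : Tendsto (fun N : ℕ => ((2 * N + 1 : ℕ) : ℂ)⁻¹ * ((N + 1 : ℕ) : ℂ)) atTop
      (𝓝 (1 / 2)) := by
    have h3 : Tendsto (fun N : ℕ => (1 / 2 : ℂ) + 1 / 2 * ((2 * N + 1 : ℕ) : ℂ)⁻¹) atTop
        (𝓝 (1 / 2 + 1 / 2 * 0)) := tendsto_const_nhds.add (hlim0.const_mul _)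
    rw [mul_zero, add_zero] at h3
    refine h3.congr fun N => ?_
    have hN : ((2 * N + 1 : ℕ) : ℂ) ≠ 0 := by exact_mod_cast Nat.succ_ne_zero (2 * N)
    field_simp
    push_cast
    ring
  have h4 := (hratio.mul h1).sub (hlim0.mul_const c)
  refine ⟨_, h4.congr fun N => ?_⟩
  have hN1 : ((N + 1 : ℕ) : ℂ) ≠ 0 := by exact_mod_cast Nat.succ_ne_zero N
  have e1 : ∑ n ∈ Finset.range (N + 1), ∏ j, f j ((toralMap (A j)⁻¹)^[n] x) =
      ∑ n ∈ Finset.range N, ∏ j, f j ((toralMap (A j)⁻¹)^[n + 1] x) + c := by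
    rw [Finset.sum_range_succ']
    rfl
  simp only [Function.comp_apply, Av]
  rw [e1]
  push_cast
  rw [mul_assoc]
  have hN2 : ((N : ℂ) + 1) ≠ 0 := by exact_mod_cast hN1
  field_simp
  ring

end Pool.Agent.Results.MP_4d8f14_an.ToralEndomorphisms
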