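import Pool.Agent.H922R3.TA.Skew

/-!
# Pointwise convergence of multiple ergodic averages of toral skew products

`skewMap A S φ` is the map `(y, x) ↦ (S y, A x + φ y)` of `Y × 𝕋^d`, `haarT d` the Haar probability
measure of `𝕋^d`. `Indep A`: for every `q ≥ 1` the only integer vectors `v j` such that
`∑ j, (A jᵀ) ^ (q n) v j` does not depend on `n` are zero (for example, no eigenvalue of an `A j` and
no quotient of eigenvalues of two different `A j` is a root of unity). `Good ν S`: the averages
`(1/N) ∑_{n < N} ∏_j h_j (S_j^n y)` of bounded measurable functions converge almost everywhere.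
No commutation relation is assumed.
-/

set_option autoImplicit false

open Filter Topology MeasureTheory

namespace Pool.Agent.Results.MP_4d8f14_an.ToralSkewProducts

open Pool.Agent.H922R3.TA

/-- Let `(Y, ν)` be a probability space, `S_j` measure preserving maps of `Y` and
`T_j (y, x) = (S_j y, A_j x + φ_j y)` measure preserving maps of `Y × 𝕋^d`, where the `φ_j` are
arbitrary measurable functions and the integer matrices `A_j` have nonzero determinants. Suppose
that the `A_j` are independent or that all `φ_j` vanish; and that all the `S_j` are equal or that,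
for each `q ≥ 1`, the multiple averages of the `S_j^q` converge almost everywhere. Then
`(1/N) ∑_{n < N} ∏_j f_j (T_j^n z)` converges for almost every `z`, for all bounded measurable
functions `f_j` on `Y × 𝕋^d`. -/
theorem result (d : ℕ) {J Y : Type*} [Fintype J] [MeasurableSpace Y] (ν : Measure Y)
    [IsProbabilityMeasure ν] (A : J → Matrix (Fin d) (Fin d) ℤ) (hA : ∀ j, (A j).det ≠ 0)
    (S : J → Y → Y) (hS : ∀ j, MeasurePreserving (S j) ν ν)
    (φ : J → Y → UnitAddTorus (Fin d)) (hφ : ∀ j, Measurable (φ j))
    (hI : Indep A ∨ ∀ j y, φ j y = 0)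
    (hY : (∀ i j, S i = S j) ∨ ∀ q : ℕ, 1 ≤ q → Good ν fun j => (S j)^[q]) :
    (∀ j, MeasurePreserving (skewMap (A j) (S j) (φ j)) (ν.prod (haarT d)) (ν.prod (haarT d))) ∧
      Good (ν.prod (haarT d)) fun j => skewMap (A j) (S j) (φ j) := by
  classical
  refine ⟨fun j => skew_mp (hA j) (hS j) (hφ j), fun h hm hb => ?_⟩
  exact all_skew hA hS hφ hI hY fun j => ⟨hm j, hb j⟩

end Pool.Agent.Results.MP_4d8f14_an.ToralSkewProducts
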